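import Mathlib

/-!
The number of extensions of an assignment to finitely many new variables such that the equality
pattern of the extended assignment has a given property is a polynomial in the size of the domain.
-/

set_option autoImplicit false

namespace Pool.Agent.H831R3.GI

open Polynomial

/-- The equality pattern of an assignment. -/
def pat {J A : Type} (v : J → A) : J → J → Prop := fun i j => v i = v j

lemma pat_comp {J J' A : Type} (v : J → A) (f : J' → J) :
    pat (v ∘ f) = fun i j => pat v (f i) (f j) := rfl

/-- the assignment extended by one new variable -/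
def ext1 {J A : Type} (v : J → A) (b : A) : Option J → A := fun o => o.elim b v

lemma card_range_eq {J A B : Type} (v : J → A) (w : J → B) (h : pat v = pat w) :
    Nat.card (Set.range v) = Nat.card (Set.range w) := by
  have h1 : Setoid.ker v = Setoid.ker w := by
    ext i j
    have := congrFun (congrFun h i) j
    simp only [pat] at this
    rw [Setoid.ker_def, Setoid.ker_def, this]
  rw [← Nat.card_congr (Setoid.quotientKerEquivRange v),
    ← Nat.card_congr (Setoid.quotientKerEquivRange w), h1]

/-- The number of values of one new variable giving a prescribed pattern is a polynomial. -/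
lemma one_poly (J : Type) [Finite J] (κ : J → J → Prop) (κ' : Option J → Option J → Prop) :
    ∃ q : ℤ[X], ∀ (n : ℕ) (v : J → Fin n), pat v = κ →
      (Nat.card {b : Fin n // pat (ext1 v b) = κ'} : ℤ) = q.eval (n : ℤ) := by
  classical
  by_cases hj : ∃ j, κ' none (some j)
  · obtain ⟨j, hj⟩ := hj
    -- the new value must be `v j`
    by_cases hc : ∃ (n : ℕ) (v : J → Fin n), pat v = κ ∧ pat (ext1 v (v j)) = κ'
    · obtain ⟨n₀, v₀, h₀, h₀'⟩ := hc
      refine ⟨1, fun n v hv => ?_⟩
      have hp : pat (ext1 v (v j)) = κ' := by
        have hvv : pat v = pat v₀ := hv.trans h₀.symm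
        rw [← h₀']
        funext a b
        have key : ∀ a b, (v a = v b) = (v₀ a = v₀ b) := fun a b => congrFun (congrFun hvv a) b
        cases a <;> cases b <;> simp only [pat, ext1, Option.elim, key]
      have : Nat.card {b : Fin n // pat (ext1 v b) = κ'} = 1 := by
        rw [Nat.card_eq_one_iff_unique]
        refine ⟨⟨fun a b => ?_⟩, ⟨⟨v j, hp⟩⟩⟩
        have e1 : ∀ c : {b : Fin n // pat (ext1 v b) = κ'}, c.1 = v j := by
          intro c
          have := congrFun (congrFun c.2 none) (some j)
          simp only [pat, ext1, Option.elim] at this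
          exact this.mpr hj
        exact Subtype.ext ((e1 a).trans (e1 b).symm)
      rw [this]; simp
    · refine ⟨0, fun n v hv => ?_⟩
      have : IsEmpty {b : Fin n // pat (ext1 v b) = κ'} := by
        refine ⟨fun c => hc ⟨n, v, hv, ?_⟩⟩
        have := congrFun (congrFun c.2 none) (some j)
        simp only [pat, ext1, Option.elim] at this
        have e1 : c.1 = v j := this.mpr hj
        rw [← e1]; exact c.2
      simp
  · by_cases hc : ∃ (n : ℕ) (v : J → Fin n) (b : Fin n), pat v = κ ∧ pat (ext1 v b) = κ'
    · obtain ⟨n₀, v₀, b₀, h₀, h₀'⟩ := hc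
      refine ⟨X - C (Nat.card (Set.range v₀) : ℤ), fun n v hv => ?_⟩
      have hvv : pat v = pat v₀ := hv.trans h₀.symm
      have key : ∀ a b, (v a = v b) = (v₀ a = v₀ b) := fun a b => congrFun (congrFun hvv a) b
      have hfresh : ∀ i, b₀ ≠ v₀ i := by
        intro i hi
        apply hj
        refine ⟨i, ?_⟩
        rw [← h₀']
        exact hi
      have hset : ∀ b : Fin n, pat (ext1 v b) = κ' ↔ b ∉ Set.range v := by
        intro b
        constructor
        · rintro h ⟨j, rfl⟩
          apply hj
          refine ⟨j, ?_⟩
          rw [← h]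
          rfl
        · intro h
          rw [← h₀']
          funext x y
          cases x <;> cases y
          · simp [pat, ext1]
          · rename_i y
            simp only [pat, ext1, Option.elim]
            have a1 : b ≠ v y := fun hh => h ⟨y, hh.symm⟩
            have a2 := hfresh y
            simp [a1, a2]
          · rename_i y
            simp only [pat, ext1, Option.elim]
            have a1 : v y ≠ b := fun hh => h ⟨y, hh⟩
            have a2 := (hfresh y).symm
            simp [a1, a2]
          · simp only [pat, ext1, Option.elim, key]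
      have h1 : Nat.card {b : Fin n // pat (ext1 v b) = κ'} = Nat.card ((Set.range v)ᶜ : Set (Fin n)) :=
        Nat.card_congr (Equiv.subtypeEquivRight fun b => by rw [hset b]; rfl)
      have h2 : Nat.card (Set.range v) + Nat.card ((Set.range v)ᶜ : Set (Fin n)) = n := by
        rw [Nat.card_coe_set_eq, Nat.card_coe_set_eq, Set.ncard_add_ncard_compl (Set.range v)]
        simp
      have h3 := card_range_eq v v₀ hvv
      rw [h1]
      simp only [eval_sub, eval_X, eval_C]
      rw [← h3]
      omega
    · refine ⟨0, fun n v hv => ?_⟩
      have : IsEmpty {b : Fin n // pat (ext1 v b) = κ'} :=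
        ⟨fun c => hc ⟨n, v, c.1, hv, c.2⟩⟩
      simp

/-- The counting lemma. -/
lemma count_poly (I : Type) [Finite I] : ∀ (J : Type) [Finite J]
    (R : (J ⊕ I → J ⊕ I → Prop) → Prop) (κ : J → J → Prop),
    ∃ p : ℤ[X], ∀ (n : ℕ) (v : J → Fin n), pat v = κ →
      (Nat.card {a : I → Fin n // R (pat (Sum.elim v a))} : ℤ) = p.eval (n : ℤ) := by
  classical
  induction I using Finite.induction_empty_option with
  | of_equiv e ih =>
    rename_i I₁ I₂
    intro J _ R κ
    obtain ⟨p, hp⟩ := ih J (fun π => R fun s t => π (Sum.map id e.symm s) (Sum.map id e.symm t)) κ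
    refine ⟨p, fun n v hv => ?_⟩
    rw [← hp n v hv]
    norm_cast
    refine Nat.card_congr (Equiv.subtypeEquiv (Equiv.arrowCongr e.symm (Equiv.refl _)) fun a => ?_)
    have : Sum.elim v a = Sum.elim v ((Equiv.arrowCongr e.symm (Equiv.refl (Fin n))) a) ∘
        Sum.map id e.symm := by
      funext s
      cases s <;> simp
    rw [this, pat_comp]
  | h_empty =>
    intro J _ R κ
    by_cases hc : ∃ (n : ℕ) (v : J → Fin n), pat v = κ ∧ R (pat (Sum.elim v (PEmpty.elim : PEmpty → Fin n)))
    · obtain ⟨n₀, v₀, h₀, h₀'⟩ := hc
      refine ⟨1, fun n v hv => ?_⟩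
      have hR : ∀ a : PEmpty → Fin n, R (pat (Sum.elim v a)) := by
        intro a
        have hvv : pat v = pat v₀ := hv.trans h₀.symm
        have : pat (Sum.elim v a) = pat (Sum.elim v₀ (PEmpty.elim : PEmpty → Fin n₀)) := by
          funext s t
          rcases s with s | s
          · rcases t with t | t
            · exact congrFun (congrFun hvv s) t
            · exact t.elim
          · exact s.elim
        rw [this]; exact h₀'
      have : Nat.card {a : PEmpty → Fin n // R (pat (Sum.elim v a))} = 1 := by
        rw [Nat.card_eq_one_iff_unique]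
        exact ⟨⟨fun a b => Subtype.ext (Subsingleton.elim _ _)⟩, ⟨⟨PEmpty.elim, hR _⟩⟩⟩
      rw [this]; simp
    · refine ⟨0, fun n v hv => ?_⟩
      have : IsEmpty {a : PEmpty → Fin n // R (pat (Sum.elim v a))} := by
        refine ⟨fun c => hc ⟨n, v, hv, ?_⟩⟩
        have : c.1 = PEmpty.elim := Subsingleton.elim _ _
        rw [← this]; exact c.2
      simp
  | h_option ih =>
    rename_i I₁ _
    intro J _ R κ
    -- reindexing
    let ρ : J ⊕ Option I₁ → Option J ⊕ I₁ := fun s =>
      match s with
      | .inl j => .inl (some j)
      | .inr none => .inl none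
      | .inr (some i) => .inr i
    let R' : (Option J ⊕ I₁ → Option J ⊕ I₁ → Prop) → Prop := fun π => R fun s t => π (ρ s) (ρ t)
    choose p hp using ih (Option J) R'
    choose q hq using one_poly J κ
    let _ : Fintype (Option J → Option J → Prop) := Fintype.ofFinite _
    refine ⟨∑ κ' : Option J → Option J → Prop, q κ' * p κ', fun n v hv => ?_⟩
    have e : {a : Option I₁ → Fin n // R (pat (Sum.elim v a))} ≃
        Σ b : Fin n, {a : I₁ → Fin n // R' (pat (Sum.elim (ext1 v b) a))} :=
      { toFun := fun a => ⟨a.1 none, ⟨fun i => a.1 (some i), by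
          have h := a.2
          have : Sum.elim v a.1 = Sum.elim (ext1 v (a.1 none)) (fun i => a.1 (some i)) ∘ ρ := by
            funext s
            rcases s with s | s
            · rfl
            · cases s <;> rfl
          rw [this, pat_comp] at h
          exact h⟩⟩
        invFun := fun b => ⟨fun o => o.elim b.1 b.2.1, by
          have h := b.2.2
          have : Sum.elim v (fun o : Option I₁ => o.elim b.1 b.2.1) =
              Sum.elim (ext1 v b.1) b.2.1 ∘ ρ := by
            funext s
            rcases s with s | s
            · rfl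
            · cases s <;> rfl
          rw [this, pat_comp]
          exact h⟩
        left_inv := fun a => by
          apply Subtype.ext
          funext o
          cases o <;> rfl
        right_inv := fun b => rfl }
    rw [Nat.card_congr e, Nat.card_sigma]
    push_cast
    have h1 : ∀ b : Fin n, (Nat.card {a : I₁ → Fin n // R' (pat (Sum.elim (ext1 v b) a))} : ℤ) =
        (p (pat (ext1 v b))).eval (n : ℤ) := fun b => hp _ n _ rfl
    rw [Finset.sum_congr rfl fun b _ => h1 b]
    rw [eval_finsetSum]
    have h2 : ∀ κ' : Option J → Option J → Prop, (q κ').eval (n : ℤ) =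
        ((Finset.univ.filter fun b : Fin n => pat (ext1 v b) = κ').card : ℤ) := by
      intro κ'
      rw [← hq κ' n v hv, Nat.card_eq_fintype_card, Fintype.card_subtype]
    simp_rw [eval_mul, h2]
    rw [← Finset.sum_fiberwise_of_maps_to (s := Finset.univ) (t := Finset.univ)
      (g := fun b : Fin n => pat (ext1 v b)) (fun _ _ => Finset.mem_univ _)]
    refine Finset.sum_congr rfl fun κ' _ => ?_
    rw [Finset.sum_congr rfl (g := fun _ => (p κ').eval (n : ℤ))]
    · simp
    · intro b hb
      rw [Finset.mem_filter] at hb
      rw [hb.2]

end Pool.Agent.H831R3.GI
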