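import Pool.Agent.H831R3.GI.CountPoly

/-!
Graphs interpreted in pure sets: isomorphism of two such graphs is eventually constant.
-/

set_option autoImplicit false

namespace Pool.Agent.H831R3.GI

open Polynomial

/-- The assignment `v` overwritten so that the variable `x s` gets the value `a s`. -/
noncomputable def setv {A S : Type} {K : ℕ} (v : Fin K → A) (x : S ↪ Fin K) (a : S → A) :
    Fin K → A :=
  Function.extend x a v

/-- The graph whose vertices are the `d`-tuples satisfying `V`; two different vertices are joined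
if they are in the relation `E` in one of the two orders. -/
def interp {A : Type} {d : ℕ} (V : (Fin d → A) → Prop) (E : (Fin d → A) → (Fin d → A) → Prop) :
    SimpleGraph {a : Fin d → A // V a} :=
  SimpleGraph.fromRel fun a b => E a.1 b.1

open Classical in
/-- where the value of a variable comes from -/
noncomputable def src {S : Type} {K : ℕ} (x : S ↪ Fin K) (i : Fin K) : Fin K ⊕ S :=
  if h : ∃ s, x s = i then .inr h.choose else .inl i

lemma setv_eq {A S : Type} {K : ℕ} (v : Fin K → A) (x : S ↪ Fin K) (a : S → A) :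
    setv v x a = Sum.elim v a ∘ src x := by
  classical
  funext i
  unfold setv src Function.extend
  by_cases h : ∃ s, x s = i
  · simp only [dif_pos h, Function.comp_apply, Sum.elim_inr]
  · simp only [dif_neg h, Function.comp_apply, Sum.elim_inl]

abbrev Pt (K : ℕ) := Fin K → Fin K → Prop

/-- graphs given by predicates on patterns -/
noncomputable def Gr {K d : ℕ} (x : Fin d ⊕ Fin d ↪ Fin K) (D E : Pt K → Prop) {n : ℕ}
    (v : Fin K → Fin n) :
    SimpleGraph {a : Fin d → Fin n // D (pat (setv v (Function.Embedding.inl.trans x) a))} :=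
  interp (fun a => D (pat (setv v (Function.Embedding.inl.trans x) a)))
    (fun a b => E (pat (setv v x (Sum.elim a b))))

section

variable {K d : ℕ} (x : Fin d ⊕ Fin d ↪ Fin K) (D E : Pt K → Prop) (U : Type)

/-- reindexing for one vertex -/
noncomputable def r1 (u : U) (i : Fin K) : Fin K ⊕ (U × Fin d) :=
  Sum.map id (fun k => (u, k)) (src (Function.Embedding.inl.trans x) i)

/-- reindexing for two vertices -/
noncomputable def r2 (u u' : U) (i : Fin K) : Fin K ⊕ (U × Fin d) :=
  Sum.map id (fun s => Sum.elim (fun k => (u, k)) (fun k => (u', k)) s) (src x i)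

lemma setv1 {n : ℕ} (v : Fin K → Fin n) (a : U × Fin d → Fin n) (u : U) :
    setv v (Function.Embedding.inl.trans x) (fun k => a (u, k)) = Sum.elim v a ∘ r1 x U u := by
  rw [setv_eq]
  funext i
  simp only [Function.comp_apply, r1]
  rcases src (Function.Embedding.inl.trans x) i with s | s <;> rfl

lemma setv2 {n : ℕ} (v : Fin K → Fin n) (a : U × Fin d → Fin n) (u u' : U) :
    setv v x (Sum.elim (fun k => a (u, k)) (fun k => a (u', k))) = Sum.elim v a ∘ r2 x U u u' := by
  rw [setv_eq]
  funext i
  simp only [Function.comp_apply, r2]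
  rcases src x i with s | s
  · rfl
  · rcases s with s | s <;> rfl

/-- the property of the pattern saying that the assignment codes an embedding -/
def IsEmb (F : SimpleGraph U) (π : Fin K ⊕ (U × Fin d) → Fin K ⊕ (U × Fin d) → Prop) : Prop :=
  (∀ u, D fun i j => π (r1 x U u i) (r1 x U u j)) ∧
  (∀ u u', u ≠ u' → ∃ k, ¬ π (.inr (u, k)) (.inr (u', k))) ∧
  ∀ u u', F.Adj u u' ↔ (∃ k, ¬ π (.inr (u, k)) (.inr (u', k))) ∧
    ((E fun i j => π (r2 x U u u' i) (r2 x U u u' j)) ∨
      (E fun i j => π (r2 x U u' u i) (r2 x U u' u j)))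

lemma isEmb_iff (F : SimpleGraph U) {n : ℕ} (v : Fin K → Fin n) (a : U × Fin d → Fin n) :
    IsEmb x D E U F (pat (Sum.elim v a)) ↔
      (∀ u, D (pat (setv v (Function.Embedding.inl.trans x) fun k => a (u, k)))) ∧
      (∀ u u', u ≠ u' → (fun k => a (u, k)) ≠ fun k => a (u', k)) ∧
      ∀ u u', F.Adj u u' ↔ ((fun k => a (u, k)) ≠ fun k => a (u', k)) ∧
        (E (pat (setv v x (Sum.elim (fun k => a (u, k)) fun k => a (u', k)))) ∨
          E (pat (setv v x (Sum.elim (fun k => a (u', k)) fun k => a (u, k))))) := by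
  unfold IsEmb
  have h1 : ∀ u, (fun i j => pat (Sum.elim v a) (r1 x U u i) (r1 x U u j)) =
      pat (setv v (Function.Embedding.inl.trans x) fun k => a (u, k)) := by
    intro u; rw [setv1, pat_comp]
  have h2 : ∀ u u', (fun i j => pat (Sum.elim v a) (r2 x U u u' i) (r2 x U u u' j)) =
      pat (setv v x (Sum.elim (fun k => a (u, k)) fun k => a (u', k))) := by
    intro u u'; rw [setv2, pat_comp]
  have h3 : ∀ u u', (∃ k, ¬ pat (Sum.elim v a) (.inr (u, k)) (.inr (u', k))) ↔
      (fun k => a (u, k)) ≠ fun k => a (u', k) := by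
    intro u u'
    rw [Function.ne_iff]
    rfl
  simp only [h1, h2, h3]

lemma emb_poly [Finite U] (F : SimpleGraph U) (κ : Pt K) :
    ∃ p : ℤ[X], ∀ (n : ℕ) (v : Fin K → Fin n), pat v = κ →
      (Nat.card (F ↪g Gr x D E v) : ℤ) = p.eval (n : ℤ) := by
  obtain ⟨p, hp⟩ := count_poly (U × Fin d) (Fin K) (IsEmb x D E U F) κ
  refine ⟨p, fun n v hv => ?_⟩
  rw [← hp n v hv]
  norm_cast
  refine Nat.card_congr
    { toFun := fun g => ⟨fun s => (g s.1).1 s.2, ?_⟩
      invFun := fun a =>
        { toFun := fun u => ⟨fun k => a.1 (u, k), ((isEmb_iff x D E U F v a.1).1 a.2).1 u⟩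
          inj' := ?_
          map_rel_iff' := ?_ }
      left_inv := fun g => by ext u; rfl
      right_inv := fun a => rfl }
  · rw [isEmb_iff]
    refine ⟨fun u => (g u).2, fun u u' h h' => h (g.injective (Subtype.ext h')), fun u u' => ?_⟩
    rw [← g.map_adj_iff]
    simp only [Gr, interp, SimpleGraph.fromRel_adj, ne_eq, Subtype.ext_iff]
  · intro u u' h
    by_contra hne
    exact ((isEmb_iff x D E U F v a.1).1 a.2).2.1 u u' hne (congrArg Subtype.val h)
  · intro u u'
    have := (((isEmb_iff x D E U F v a.1).1 a.2).2.2 u u').symm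
    simp only [Gr, interp, SimpleGraph.fromRel_adj, ne_eq, Subtype.ext_iff]
    exact this

end

/-- two finite graphs embedding into each other are isomorphic -/
lemma iso_of_emb {V W : Type} [Finite V] [Finite W] {G : SimpleGraph V} {H : SimpleGraph W}
    (f : G ↪g H) (g : H ↪g G) : Nonempty (G ≃g H) := by
  classical
  have := Fintype.ofFinite V
  have := Fintype.ofFinite W
  have hc : Fintype.card V = Fintype.card W :=
    le_antisymm (Fintype.card_le_of_injective f f.injective)
      (Fintype.card_le_of_injective g g.injective)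
  have hb : Function.Bijective f :=
    (Fintype.bijective_iff_injective_and_card f).2 ⟨f.injective, hc⟩
  exact ⟨{ toEquiv := Equiv.ofBijective f hb, map_rel_iff' := f.map_rel_iff' }⟩

/-- For a fixed pattern of the parameters, isomorphism of two interpreted graphs holds for all
sizes as soon as it holds for infinitely many sizes. -/
theorem iso_all {K d e : ℕ} (x : Fin d ⊕ Fin d ↪ Fin K) (y : Fin e ⊕ Fin e ↪ Fin K)
    (D E D' E' : Pt K → Prop) (κ : Pt K)
    (hinf : {n : ℕ | ∃ v : Fin K → Fin n, pat v = κ ∧
      Nonempty (Gr x D E v ≃g Gr y D' E' v)}.Infinite)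
    (n : ℕ) (v : Fin K → Fin n) (hv : pat v = κ) : Nonempty (Gr x D E v ≃g Gr y D' E' v) := by
  -- equal numbers of embeddings
  have key : ∀ (U : Type) [Finite U] (F : SimpleGraph U),
      Nat.card (F ↪g Gr x D E v) = Nat.card (F ↪g Gr y D' E' v) := by
    intro U _ F
    obtain ⟨p, hp⟩ := emb_poly x D E U F κ
    obtain ⟨q, hq⟩ := emb_poly y D' E' U F κ
    have hpq : p = q := by
      apply eq_of_infinite_eval_eq
      have := hinf.image (f := fun n : ℕ => (n : ℤ)) Nat.cast_injective.injOn
      refine this.mono ?_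
      rintro _ ⟨m, ⟨w, hw, ⟨φ⟩⟩, rfl⟩
      show p.eval (m : ℤ) = q.eval (m : ℤ)
      rw [← hp m w hw, ← hq m w hw]
      norm_cast
      exact Nat.card_congr
        { toFun := fun g => g.trans φ.toEmbedding
          invFun := fun g => g.trans φ.symm.toEmbedding
          left_inv := fun g => by ext u; simp
          right_inv := fun g => by ext u; simp }
    have := hp n v hv
    rw [hpq, ← hq n v hv] at this
    exact_mod_cast this
  have h1 : 0 < Nat.card (Gr x D E v ↪g Gr x D E v) := by
    have : Finite (Gr x D E v ↪g Gr x D E v) :=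
      Finite.of_injective (fun g => (g : _ → _)) DFunLike.coe_injective
    have : Nonempty (Gr x D E v ↪g Gr x D E v) := ⟨RelEmbedding.refl _⟩
    exact Nat.card_pos
  have h2 : 0 < Nat.card (Gr y D' E' v ↪g Gr y D' E' v) := by
    have : Finite (Gr y D' E' v ↪g Gr y D' E' v) :=
      Finite.of_injective (fun g => (g : _ → _)) DFunLike.coe_injective
    have : Nonempty (Gr y D' E' v ↪g Gr y D' E' v) := ⟨RelEmbedding.refl _⟩
    exact Nat.card_pos
  rw [key] at h1
  rw [← key] at h2
  obtain ⟨f⟩ := (Nat.card_pos_iff.1 h1).1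
  obtain ⟨g⟩ := (Nat.card_pos_iff.1 h2).1
  exact iso_of_emb f g

end Pool.Agent.H831R3.GI
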