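import Mathlib

/-!
The satisfiability coding lemma of Paturi, Pudlák and Zane: a set of Boolean vectors defined by a
`k`-CNF formula all of whose elements are isolated in all directions is small.
-/

set_option autoImplicit false

namespace Pool.Agent.H831R3.GI

open Finset

/-- `K` is a critical set of `z` in the direction `e`: in `S` the values on the rest of `K`
determine the value at `e`. -/
def Crit {V : Type} (S : Set (V → Bool)) (z : V → Bool) (e : V) (K : Finset V) : Prop :=
  e ∈ K ∧ ∀ z' ∈ S, (∀ f ∈ K, f ≠ e → z' f = z f) → z' e = z e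

variable {V : Type} [Fintype V] [DecidableEq V]

/-- the weight -/
noncomputable def wt (κ : V → Finset V) (U : Finset V) : ℝ :=
  ∑ e ∈ U, (1 : ℝ) / ((κ e ∩ U).card : ℝ)

omit [Fintype V] in
lemma wt_avg (κ : V → Finset V) (hκ : ∀ e, e ∈ κ e) (U : Finset V) :
    (U.card : ℝ) * wt κ U =
      ∑ x ∈ U, (wt κ (U.erase x) + if κ x ∩ U = {x} then (1 : ℝ) else 0) := by
  -- exchange the order of summation
  have h1 : ∑ x ∈ U, (wt κ (U.erase x) + if κ x ∩ U = {x} then (1 : ℝ) else 0) =
      ∑ e ∈ U, ((∑ x ∈ U.erase e, (1 : ℝ) / ((κ e ∩ U.erase x).card : ℝ)) +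
        if κ e ∩ U = {e} then (1 : ℝ) else 0) := by
    rw [sum_add_distrib, sum_add_distrib]
    congr 1
    unfold wt
    rw [sum_sigma', sum_sigma']
    refine sum_bij' (fun p _ => ⟨p.2, p.1⟩) (fun p _ => ⟨p.2, p.1⟩) ?_ ?_ ?_ ?_ ?_
    · rintro ⟨x, e⟩ h
      simp only [mem_sigma, mem_erase] at h ⊢
      exact ⟨h.2.2, Ne.symm h.2.1, h.1⟩
    · rintro ⟨x, e⟩ h
      simp only [mem_sigma, mem_erase] at h ⊢
      exact ⟨h.2.2, Ne.symm h.2.1, h.1⟩
    · intros; rfl
    · intros; rfl
    · intros; rfl
  rw [h1, wt, mul_sum]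
  refine sum_congr rfl fun e he => ?_
  have hee : e ∈ κ e ∩ U := mem_inter.2 ⟨hκ e, he⟩
  have hpos : 0 < (κ e ∩ U).card := card_pos.2 ⟨e, hee⟩
  -- split the sum
  have h2 : ∑ x ∈ U.erase e, (1 : ℝ) / ((κ e ∩ U.erase x).card : ℝ) =
      ∑ x ∈ (κ e ∩ U).erase e, (1 : ℝ) / (((κ e ∩ U).card : ℝ) - 1) +
      ∑ x ∈ U \ (κ e ∩ U), (1 : ℝ) / ((κ e ∩ U).card : ℝ) := by
    have hsplit : U.erase e = (κ e ∩ U).erase e ∪ (U \ (κ e ∩ U)) := by
      ext x
      simp only [mem_erase, mem_union, mem_inter, mem_sdiff, not_and]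
      constructor
      · rintro ⟨hx1, hx2⟩
        by_cases hx : x ∈ κ e
        · exact Or.inl ⟨hx1, hx, hx2⟩
        · exact Or.inr ⟨hx2, fun h => absurd h hx⟩
      · rintro (⟨h1, _, h3⟩ | ⟨h1, h2⟩)
        · exact ⟨h1, h3⟩
        · refine ⟨?_, h1⟩
          rintro rfl
          exact h2 (hκ x) h1
    rw [hsplit, sum_union]
    · congr 1
      · refine sum_congr rfl fun x hx => ?_
        rw [mem_erase] at hx
        have : κ e ∩ U.erase x = (κ e ∩ U).erase x := by
          ext y; simp only [mem_inter, mem_erase]; tauto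
        rw [this, card_erase_of_mem hx.2, Nat.cast_sub hpos]
        simp
      · refine sum_congr rfl fun x hx => ?_
        rw [mem_sdiff, mem_inter, not_and] at hx
        have : κ e ∩ U.erase x = κ e ∩ U := by
          ext y
          simp only [mem_inter, mem_erase]
          constructor
          · rintro ⟨h1, _, h3⟩; exact ⟨h1, h3⟩
          · rintro ⟨h1, h3⟩
            refine ⟨h1, ?_, h3⟩
            rintro rfl
            exact hx.2 h1 h3
        rw [this]
    · rw [disjoint_left]
      intro x hx hx'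
      exact (mem_sdiff.1 hx').2 (mem_of_mem_erase hx)
  rw [h2, sum_const, sum_const, card_erase_of_mem hee, card_sdiff_of_subset inter_subset_right,
    nsmul_eq_mul, nsmul_eq_mul]
  have hle : (κ e ∩ U).card ≤ U.card := card_le_card inter_subset_right
  rw [Nat.cast_sub hle, Nat.cast_sub hpos]
  have hpos' : (0 : ℝ) < ((κ e ∩ U).card : ℝ) := by exact_mod_cast hpos
  by_cases hc : κ e ∩ U = {e}
  · rw [if_pos hc, hc]
    simp
  · rw [if_neg hc]
    have hc2 : 1 < (κ e ∩ U).card := by
      rcases Nat.lt_or_ge 1 (κ e ∩ U).card with h | h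
      · exact h
      · exfalso
        apply hc
        have : (κ e ∩ U).card = 1 := by omega
        obtain ⟨x, hx⟩ := card_eq_one.1 this
        rw [hx] at hee ⊢
        rw [mem_singleton] at hee
        rw [hee]
    have h3 : (((κ e ∩ U).card : ℝ) - 1) ≠ 0 := by
      have : (1 : ℝ) < ((κ e ∩ U).card : ℝ) := by exact_mod_cast hc2
      linarith
    push_cast
    field_simp
    ring

lemma ppz_induction (S : Finset (V → Bool)) (κ : (V → Bool) → V → Finset V)
    (hκ : ∀ z ∈ S, ∀ e, Crit (S : Set (V → Bool)) z e (κ z e)) (m : ℕ) :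
    ∀ (U : Finset V) (a : V → Bool), U.card = m →
      ∑ z ∈ S.filter (fun z => ∀ f, f ∉ U → z f = a f), Real.exp (Real.log 2 * wt (κ z) U) ≤
        2 ^ m := by
  induction m with
  | zero =>
    intro U a hU
    rw [card_eq_zero] at hU
    subst hU
    have h1 : ∀ z ∈ S.filter (fun z => ∀ f, f ∉ (∅ : Finset V) → z f = a f),
        Real.exp (Real.log 2 * wt (κ z) ∅) = 1 := by
      intro z _
      simp [wt]
    rw [sum_congr rfl h1, sum_const, nsmul_eq_mul, mul_one, pow_zero]
    have : (S.filter (fun z => ∀ f, f ∉ (∅ : Finset V) → z f = a f)).card ≤ 1 := by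
      rw [card_le_one]
      intro z hz z' hz'
      rw [mem_filter] at hz hz'
      funext f
      rw [hz.2 f (by simp), hz'.2 f (by simp)]
    exact_mod_cast this
  | succ m ih =>
    intro U a hU
    have hUpos : (0 : ℝ) < (U.card : ℝ) := by rw [hU]; positivity
    set T := S.filter (fun z => ∀ f, f ∉ U → z f = a f) with hT
    have hl : (0 : ℝ) ≤ Real.log 2 := Real.log_nonneg (by norm_num)
    -- Jensen
    have hJ : ∀ z ∈ T, Real.exp (Real.log 2 * wt (κ z) U) ≤
        ∑ x ∈ U, ((U.card : ℝ)⁻¹ * Real.exp (Real.log 2 * (wt (κ z) (U.erase x) +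
          if κ z x ∩ U = {x} then (1 : ℝ) else 0))) := by
      intro z hz
      have hzS : z ∈ S := (mem_filter.1 hz).1
      have h1 := wt_avg (κ z) (fun e => (hκ z hzS e).1) U
      have h2 : Real.log 2 * wt (κ z) U = ∑ x ∈ U, (U.card : ℝ)⁻¹ •
          (Real.log 2 * (wt (κ z) (U.erase x) + if κ z x ∩ U = {x} then (1 : ℝ) else 0)) := by
        simp_rw [smul_eq_mul]
        rw [← mul_sum, ← mul_sum, ← h1]
        field_simp
      rw [h2]
      have h3 := convexOn_exp.map_sum_le (t := U) (w := fun _ => (U.card : ℝ)⁻¹)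
        (p := fun x => Real.log 2 * (wt (κ z) (U.erase x) +
          if κ z x ∩ U = {x} then (1 : ℝ) else 0))
        (fun _ _ => by positivity)
        (by rw [sum_const, nsmul_eq_mul]; field_simp) (fun _ _ => Set.mem_univ _)
      simpa only [smul_eq_mul] using h3
    refine (sum_le_sum hJ).trans ?_
    rw [sum_comm]
    have hx : ∀ x ∈ U, ∑ z ∈ T, ((U.card : ℝ)⁻¹ * Real.exp (Real.log 2 * (wt (κ z) (U.erase x) +
          if κ z x ∩ U = {x} then (1 : ℝ) else 0))) ≤ (U.card : ℝ)⁻¹ * 2 ^ (m + 1) := by
      intro x hxU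
      rw [← mul_sum]
      refine mul_le_mul_of_nonneg_left ?_ (by positivity)
      have hcard : (U.erase x).card = m := by rw [card_erase_of_mem hxU, hU]; rfl
      by_cases hA : ∃ z₀ ∈ T, κ z₀ x ∩ U = {x}
      · obtain ⟨z₀, hz₀, hz₀'⟩ := hA
        have hz₀S : z₀ ∈ S := (mem_filter.1 hz₀).1
        -- the value at `x` is constant
        have hconst : ∀ z ∈ T, z x = z₀ x := by
          intro z hz
          refine (hκ z₀ hz₀S x).2 z (by exact_mod_cast (mem_filter.1 hz).1) fun f hf hfx => ?_
          have hfU : f ∉ U := by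
            intro hfU
            have : f ∈ κ z₀ x ∩ U := mem_inter.2 ⟨hf, hfU⟩
            rw [hz₀', mem_singleton] at this
            exact hfx this
          rw [(mem_filter.1 hz).2 f hfU, (mem_filter.1 hz₀).2 f hfU]
        have hTsub : T ⊆ S.filter (fun z => ∀ f, f ∉ U.erase x → z f = z₀ f) := by
          intro z hz
          rw [mem_filter]
          refine ⟨(mem_filter.1 hz).1, fun f hf => ?_⟩
          by_cases hfx : f = x
          · rw [hfx]; exact hconst z hz
          · have hfU : f ∉ U := fun h => hf (mem_erase.2 ⟨hfx, h⟩)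
            rw [(mem_filter.1 hz).2 f hfU, (mem_filter.1 hz₀).2 f hfU]
        calc ∑ z ∈ T, Real.exp (Real.log 2 * (wt (κ z) (U.erase x) +
              if κ z x ∩ U = {x} then (1 : ℝ) else 0))
            ≤ ∑ z ∈ T, 2 * Real.exp (Real.log 2 * wt (κ z) (U.erase x)) := by
              refine sum_le_sum fun z _ => ?_
              have h2 : (2 : ℝ) * Real.exp (Real.log 2 * wt (κ z) (U.erase x)) =
                  Real.exp (Real.log 2 * (wt (κ z) (U.erase x) + 1)) := by
                rw [mul_add, mul_one, Real.exp_add, Real.exp_log (by norm_num), mul_comm]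
              rw [h2]
              apply Real.exp_le_exp.2
              apply mul_le_mul_of_nonneg_left _ hl
              split_ifs <;> linarith
          _ ≤ ∑ z ∈ S.filter (fun z => ∀ f, f ∉ U.erase x → z f = z₀ f),
                2 * Real.exp (Real.log 2 * wt (κ z) (U.erase x)) :=
              sum_le_sum_of_subset_of_nonneg hTsub fun _ _ _ => by positivity
          _ ≤ 2 * 2 ^ m := by
              rw [← mul_sum]
              exact mul_le_mul_of_nonneg_left (ih _ z₀ hcard) (by norm_num)
          _ = 2 ^ (m + 1) := by ring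
      · push Not at hA
        have hTsub : T ⊆ (S.filter (fun z => ∀ f, f ∉ U.erase x →
              z f = Function.update a x true f)) ∪
            (S.filter (fun z => ∀ f, f ∉ U.erase x → z f = Function.update a x false f)) := by
          intro z hz
          rw [mem_union, mem_filter, mem_filter]
          have h1 : ∀ c : Bool, z x = c → ∀ f, f ∉ U.erase x → z f = Function.update a x c f := by
            intro c hc f hf
            by_cases hfx : f = x
            · rw [hfx, Function.update_self, hc]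
            · rw [Function.update_of_ne hfx]
              exact (mem_filter.1 hz).2 f fun h => hf (mem_erase.2 ⟨hfx, h⟩)
          cases hzx : z x with
          | true => exact Or.inl ⟨(mem_filter.1 hz).1, h1 true hzx⟩
          | false => exact Or.inr ⟨(mem_filter.1 hz).1, h1 false hzx⟩
        calc ∑ z ∈ T, Real.exp (Real.log 2 * (wt (κ z) (U.erase x) +
              if κ z x ∩ U = {x} then (1 : ℝ) else 0))
            = ∑ z ∈ T, Real.exp (Real.log 2 * wt (κ z) (U.erase x)) := by
              refine sum_congr rfl fun z hz => ?_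
              rw [if_neg (hA z hz), add_zero]
          _ ≤ ∑ z ∈ (S.filter (fun z => ∀ f, f ∉ U.erase x →
                z f = Function.update a x true f)) ∪
              (S.filter (fun z => ∀ f, f ∉ U.erase x → z f = Function.update a x false f)),
                Real.exp (Real.log 2 * wt (κ z) (U.erase x)) :=
              sum_le_sum_of_subset_of_nonneg hTsub fun _ _ _ => by positivity
          _ ≤ _ + _ := sum_union_le' _ _ _ fun _ => by positivity
          _ ≤ 2 ^ m + 2 ^ m := add_le_add (ih _ _ hcard) (ih _ _ hcard)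
          _ = 2 ^ (m + 1) := by ring
    refine (sum_le_sum hx).trans ?_
    rw [sum_const, nsmul_eq_mul, ← mul_assoc, mul_inv_cancel₀ hUpos.ne', one_mul]
where
  sum_union_le' (A B : Finset (V → Bool)) (g : (V → Bool) → ℝ) (hg : ∀ z, 0 ≤ g z) :
      ∑ z ∈ A ∪ B, g z ≤ ∑ z ∈ A, g z + ∑ z ∈ B, g z := by
    have := sum_union_inter (s₁ := A) (s₂ := B) (f := g)
    have h2 : 0 ≤ ∑ z ∈ A ∩ B, g z := sum_nonneg fun z _ => hg z
    linarith

/-- The coding lemma. -/
theorem ppz (S : Finset (V → Bool)) (k : ℕ)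
    (h : ∀ z ∈ S, ∀ e, ∃ K : Finset V, K.card ≤ k ∧ Crit (S : Set (V → Bool)) z e K) :
    (S.card : ℝ) * (2 : ℝ) ^ ((Fintype.card V : ℝ) / k) ≤ 2 ^ (Fintype.card V) := by
  classical
  choose! κ hκ1 hκ2 using h
  have h1 := ppz_induction S κ hκ2 (Fintype.card V) univ (fun _ => false) card_univ
  refine le_trans ?_ h1
  have h2 : S.filter (fun z => ∀ f, f ∉ (univ : Finset V) → z f = false) = S :=
    filter_true_of_mem fun z _ f hf => absurd (mem_univ f) hf
  rw [h2, ← nsmul_eq_mul, ← sum_const]
  refine sum_le_sum fun z hz => ?_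
  rw [Real.rpow_def_of_pos (by norm_num)]
  apply Real.exp_le_exp.2
  apply mul_le_mul_of_nonneg_left _ (Real.log_nonneg (by norm_num))
  unfold wt
  have h3 : ((Fintype.card V : ℝ) / k) = ∑ _e ∈ (univ : Finset V), (1 : ℝ) / k := by
    rw [sum_const, card_univ, nsmul_eq_mul]; ring
  rw [h3]
  refine sum_le_sum fun e _ => ?_
  rw [inter_univ]
  have h4 : 0 < (κ z e).card := card_pos.2 ⟨e, (hκ2 z hz e).1⟩
  have h5 := hκ1 z hz e
  exact one_div_le_one_div_of_le (by exact_mod_cast h4) (by exact_mod_cast h5)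

end Pool.Agent.H831R3.GI
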